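import Pool.Agent.GRM.Limit

/-! # The second term of the covering radius of `RM(r,m)` for growing orders `r = o(m)` -/

set_option autoImplicit false

open scoped BigOperators

namespace Pool.Agent.Results.MP_11cd4d_lc.GrowingOrders

/-- `N_r(f)`: the least Hamming distance from `f` to a Boolean function given by a polynomial of
total degree at most `r`. -/
noncomputable def rmDist (r m : ℕ) (f : (Fin m → ZMod 2) → ZMod 2) : ℕ :=
  sInf {d | ∃ p : MvPolynomial (Fin m) (ZMod 2), p.totalDegree ≤ r ∧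
    d = (Finset.univ.filter (fun x => f x ≠ MvPolynomial.eval x p)).card}

/-- The covering radius of the Reed-Muller code `RM(r,m)`. -/
noncomputable def covRadius (r m : ℕ) : ℕ :=
  Finset.univ.sup (fun f : (Fin m → ZMod 2) → ZMod 2 => rmDist r m f)

lemma covRadius_eq (r m : ℕ) : covRadius r m = RMC71.covRadius r m := rfl

/-- (1) For `1 ≤ g ≤ t`, `2 t ≤ m`, `2304 t^2 log_2(m/t) ≤ g m`:
`ρ(t+g+1, m) ≤ 2^(m-1) - (1/7) (g m / (64 t^2 log_2(m/t)))^(t/2) 2^(m/2)`.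
(2) For every `ε > 0` there is `C` such that for all `r ≥ C`, `m ≥ C r`
`(m/r)^((1/2-ε) r) 2^(m/2) ≤ 2^(m-1) - ρ(r,m) ≤ (m/r)^((1/2+ε) r) 2^(m/2)`. -/
theorem result :
    (∀ t g m : ℕ, 1 ≤ t → 1 ≤ g → g ≤ t → 2 * t ≤ m →
      36 * (64 * (t : ℝ) ^ 2 * Real.logb 2 (m / t)) ≤ g * m →
      (covRadius (t + g + 1) m : ℝ) ≤ 2 ^ m / 2 -
        1 / 7 * ((g : ℝ) * m / (64 * t ^ 2 * Real.logb 2 (m / t))) ^ ((t : ℝ) / 2)
          * Real.sqrt (2 ^ m)) ∧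
    (∀ ε : ℝ, 0 < ε → ∃ C : ℕ, ∀ r m : ℕ, C ≤ r → C * r ≤ m →
      ((m : ℝ) / r) ^ ((1 / 2 - ε) * r) * Real.sqrt (2 ^ m) ≤ 2 ^ m / 2 - covRadius r m ∧
      (2 : ℝ) ^ m / 2 - covRadius r m
        ≤ ((m : ℝ) / r) ^ ((1 / 2 + ε) * r) * Real.sqrt (2 ^ m)) :=
  ⟨fun t g m h1 h2 h3 h4 h5 => RMG.explicit t g m h1 h2 h3 h4 h5,
    fun ε hε => RMG.two_sided ε hε⟩

end Pool.Agent.Results.MP_11cd4d_lc.GrowingOrders
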