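import Pool.Agent.CRQ.Final
import Pool.Agent.CRQ.Worst

/-! # The covering radius of `RM(m-s, m)` for fixed `s ≥ 4` is at most `(1/(2 (s-2)!) + o(1)) m^(s-2)` -/

set_option autoImplicit false

namespace Pool.Agent.Results.MP_11cd4d_lc.HalfConstant

/-- `N_r(f)`: the least Hamming distance from `f` to a Boolean function given by a polynomial of
total degree at most `r`. -/
noncomputable def rmDist (r m : ℕ) (f : (Fin m → ZMod 2) → ZMod 2) : ℕ :=
  sInf {d | ∃ p : MvPolynomial (Fin m) (ZMod 2), p.totalDegree ≤ r ∧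
    d = (Finset.univ.filter (fun x => f x ≠ MvPolynomial.eval x p)).card}

/-- The covering radius of the Reed-Muller code `RM(r,m)`. -/
noncomputable def covRadius (r m : ℕ) : ℕ :=
  Finset.univ.sup (fun f : (Fin m → ZMod 2) → ZMod 2 => rmDist r m f)

/-- For every fixed `s ≥ 4` and `ε > 0`, for all large `m`, `ρ(m-s,m) ≤ (1/(2 (s-2)!) + ε) m^(s-2)`. -/
theorem result (s : ℕ) (hs : 4 ≤ s) (ε : ℝ) (hε : 0 < ε) :
    ∃ M : ℕ, ∀ m : ℕ, M ≤ m →
      (covRadius (m - s) m : ℝ) ≤ (1 / (2 * ((s - 2).factorial : ℝ)) + ε) * (m : ℝ) ^ (s - 2) :=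
  CRQ.main CRQ.worstThm s hs ε hε

end Pool.Agent.Results.MP_11cd4d_lc.HalfConstant
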