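import Pool.Agent.RM7.Par3
import Pool.Agent.RMX.Final88

/-! # For `r ≥ 3`, `L ≥ 10^8 r^3` and `2^L ≥ m ≥ 128 L^8`:
`ρ(r,m) ≤ 2^(m-1) - (1/5) (m / (2 L^8))^((r-1)/2) 2^(m/2)` -/

set_option autoImplicit false

open scoped BigOperators

namespace Pool.Agent.Results.MP_11cd4d_lc.HalfGapExponent

/-- `N_r(f)`: the least Hamming distance from `f` to a Boolean function given by a polynomial of
total degree at most `r`. -/
noncomputable def rmDist (r m : ℕ) (f : (Fin m → ZMod 2) → ZMod 2) : ℕ :=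
  sInf {d | ∃ p : MvPolynomial (Fin m) (ZMod 2), p.totalDegree ≤ r ∧
    d = (Finset.univ.filter (fun x => f x ≠ MvPolynomial.eval x p)).card}

/-- The covering radius of the Reed-Muller code `RM(r,m)`. -/
noncomputable def covRadius (r m : ℕ) : ℕ :=
  Finset.univ.sup (fun f : (Fin m → ZMod 2) → ZMod 2 => rmDist r m f)

lemma covRadius_eq (r m : ℕ) : covRadius r m = RMC71.covRadius r m := rfl

/-- For every order `r ≥ 3` and all `m`, `L` with `L ≥ 10^8 r^3` and `2^L ≥ m ≥ 128 L^8`,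
`ρ(r,m) ≤ 2^(m-1) - (1/5) (m / (2 L^8))^((r-1)/2) 2^(m/2)`. For fixed `r` and large `m` one can
take `L = ⌈log₂ m⌉`. -/
theorem result (r m L : ℕ) (hr : 3 ≤ r) (hL : 10 ^ 8 * r ^ 3 ≤ L) (hmL : m ≤ 2 ^ L)
    (hm : 128 * L ^ 8 ≤ m) :
    (covRadius r m : ℝ) ≤ 2 ^ m / 2 -
      1 / 5 * ((m : ℝ) / (2 * (L : ℝ) ^ 8)) ^ (((r : ℝ) - 1) / 2) * Real.sqrt (2 ^ m) := by
  obtain ⟨t, rfl⟩ : ∃ t, r = t + 2 := ⟨r - 2, by omega⟩
  have ht : 1 ≤ t := by omega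
  have hNS : P288.NonStr t (10 ^ 8 * (t + 2) ^ 3) := fun _ _ _ _ h1 h2 h3 h4 h5 h6 =>
    (RMH.Par7.mk ht h1 h2 h3 h4 h5 h6).count7
  have h2 : (((t + 2 : ℕ) : ℝ) - 1) / 2 = ((t : ℝ) + 1) / 2 := by push_cast; ring
  have hLam : P288.Lam1 t ≤ L := by
    refine le_trans ?_ hL
    have h1 : t + t ≤ 2 * (t + 2) := by omega
    have h4 : (t + 2) ^ 2 ≤ (t + 2) ^ 3 := Nat.pow_le_pow_right (by omega) (by omega)
    calc 4000 * (t + 2) * (t + t) ≤ 4000 * (t + 2) * (2 * (t + 2)) := Nat.mul_le_mul_left _ h1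
      _ = 8000 * (t + 2) ^ 2 := by ring
      _ ≤ 10 ^ 8 * (t + 2) ^ 3 := Nat.mul_le_mul (by norm_num) h4
  rw [covRadius_eq, h2]
  exact P288.cov_uniform t _ L m ht hNS hL hLam hmL hm

end Pool.Agent.Results.MP_11cd4d_lc.HalfGapExponent
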