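import Pool.Agent.Helper44.RM.Key
import Pool.Agent.Helper71.RMC.Rec

set_option autoImplicit false

open scoped BigOperators

namespace Pool.Agent.Results.MP_11cd4d_lc.SquareRootDeficiency

/-- `N_r(f)`: the least Hamming distance from `f` to a Boolean function given by a polynomial of
total degree at most `r`. -/
noncomputable def rmDist (r m : ℕ) (f : (Fin m → ZMod 2) → ZMod 2) : ℕ :=
  sInf {d | ∃ p : MvPolynomial (Fin m) (ZMod 2), p.totalDegree ≤ r ∧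
    d = (Finset.univ.filter (fun x => f x ≠ MvPolynomial.eval x p)).card}

/-- The covering radius of the Reed-Muller code `RM(r,m)`. -/
noncomputable def covRadius (r m : ℕ) : ℕ :=
  Finset.univ.sup (fun f : (Fin m → ZMod 2) → ZMod 2 => rmDist r m f)

lemma covRadius_eq (r m : ℕ) : covRadius r m = RMC71.covRadius r m := rfl

/-- the bound in terms of `s`, where `m` is at least linear in `s` -/
lemma covRadius_le (r : ℕ) (hr : 2 ≤ r) (s : ℕ) (hs : 6 ≤ s) (m : ℕ) (hm : 119296 * s + 1993 ≤ m) :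
    (covRadius r m : ℝ)
      ≤ 2 ^ m / 2 - Real.sqrt ((s : ℝ) / Real.exp 1) * Real.sqrt (2 ^ m) / 2 := by
  obtain ⟨f, -, hf⟩ := Finset.exists_mem_eq_sup (Finset.univ : Finset ((Fin m → ZMod 2) → ZMod 2))
    ⟨0, Finset.mem_univ _⟩ (fun f => rmDist r m f)
  unfold covRadius
  rw [hf]
  have hcard : Fintype.card (Fin m → ZMod 2) = 2 ^ m := by
    rw [Fintype.card_fun, ZMod.card, Fintype.card_fin]
  obtain ⟨p, hp, hd⟩ := RMC71.exists_close_of s m
    (fun F hF ρ hR => RM44.key_w s hs m hm (Fin m → ZMod 2) hcard F hF ρ hR) f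
  refine le_trans ?_ hd
  have h1 : rmDist r m f ≤ (Finset.univ.filter (fun x => f x ≠ MvPolynomial.eval x p)).card :=
    Nat.sInf_le ⟨p, hp.trans hr, rfl⟩
  refine le_trans (Nat.cast_le.2 h1) (le_of_eq ?_)
  congr

theorem explicit (r : ℕ) (hr : 2 ≤ r) (m : ℕ) (hm : 2 ^ 20 ≤ m) :
    (covRadius r m : ℝ) ≤ 2 ^ m / 2 - 1 / 1210 * Real.sqrt m * Real.sqrt (2 ^ m) := by
  obtain ⟨s, t, ht, hst⟩ : ∃ s t : ℕ, t < 119296 ∧ m = 119296 * s + 1993 + t :=
    ⟨(m - 1993) / 119296, (m - 1993) % 119296, Nat.mod_lt _ (by norm_num), by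
      have h1 := Nat.div_add_mod (m - 1993) 119296
      have h2 : 1993 ≤ m := le_trans (by norm_num) hm
      omega⟩
  have hs8 : 8 ≤ s := by
    by_contra hcon
    have h1 : s ≤ 7 := by omega
    have h2 : (2 : ℕ) ^ 20 = 1048576 := by norm_num
    rw [h2] at hm
    omega
  refine (covRadius_le r hr s (by omega) m (by omega)).trans ?_
  have hs8R : (8 : ℝ) ≤ s := by exact_mod_cast hs8
  have hmR : (m : ℝ) = 119296 * s + 1993 + t := by
    rw [hst]
    push_cast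
    ring
  have htR : (t : ℝ) + 1 ≤ 119296 := by exact_mod_cast ht
  have he : Real.exp 1 < 2.7182818286 := Real.exp_one_lt_d9
  have hepos := Real.exp_pos 1
  have hm0 : (0 : ℝ) ≤ m := Nat.cast_nonneg _
  have hkey : 1 / 1210 * Real.sqrt m ≤ Real.sqrt ((s : ℝ) / Real.exp 1) / 2 := by
    have h4 : (m : ℝ) / 605 ^ 2 ≤ (s : ℝ) / Real.exp 1 := by
      rw [le_div_iff₀ hepos, div_mul_eq_mul_div, div_le_iff₀ (by norm_num)]
      calc (m : ℝ) * Real.exp 1 ≤ m * 2.7182818286 := by gcongr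
        _ ≤ s * 605 ^ 2 := by
          rw [hmR]
          nlinarith
    have h6 := Real.sqrt_le_sqrt h4
    rw [Real.sqrt_div hm0, Real.sqrt_sq (by norm_num)] at h6
    linarith
  have h10 : 0 ≤ Real.sqrt ((2 : ℝ) ^ m) := Real.sqrt_nonneg _
  have h11 := mul_le_mul_of_nonneg_right hkey h10
  linarith

/-- For every order `r ≥ 2` the covering radius of `RM(r,m)` satisfies
`ρ(r,m) ≤ 2^(m-1) - (1/1210) m^(1/2) 2^(m/2)` for all `m ≥ 2^20`, and
`ρ(r,m) ≤ 2^(m-1) - (1/1210) (1+√2)^(r-2) (m - 2^20 - 12(r-2))^(1/2) 2^(m/2)`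
for all `m ≥ 2^20 + 12(r-2)`. -/
theorem result :
    (∀ r : ℕ, 2 ≤ r → ∀ m : ℕ, 2 ^ 20 ≤ m →
      (covRadius r m : ℝ) ≤ 2 ^ m / 2 - 1 / 1210 * Real.sqrt m * Real.sqrt (2 ^ m)) ∧
    (∀ r : ℕ, 2 ≤ r → ∀ m : ℕ, 2 ^ 20 + 12 * (r - 2) ≤ m →
      (covRadius r m : ℝ) ≤ 2 ^ m / 2 - 1 / 1210 * (1 + Real.sqrt 2) ^ (r - 2) *
        Real.sqrt ((m : ℝ) - (2 ^ 20 + 12 * ((r - 2 : ℕ) : ℝ))) * Real.sqrt (2 ^ m)) := by
  refine ⟨explicit, fun r hr m hm => ?_⟩
  obtain ⟨k, rfl⟩ := Nat.exists_eq_add_of_le hr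
  have hk : 2 + k - 2 = k := by omega
  rw [hk] at hm ⊢
  have h := RMC71.gap_all (1 / 1210) (by norm_num) (2 ^ 20) 2 (fun m hm => by
    have h1 := explicit 2 le_rfl m hm
    rw [covRadius_eq] at h1
    unfold RMC71.gap
    linarith) k m hm
  unfold RMC71.gap at h
  rw [covRadius_eq]
  have h2 : (((2 ^ 20 : ℕ) : ℝ)) = 2 ^ 20 := by norm_num
  rw [h2] at h
  linarith

end Pool.Agent.Results.MP_11cd4d_lc.SquareRootDeficiency
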